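import Pool.Agent.U112.FPG.Thr
import Pool.Agent.Results.MP_7bf935_al.MaximalFPP

/-!
# Not every number up to the maximum is the fixed-point proportion of a level-transitive group

`fppSet d` is the set of the fixed-point proportions of the level-transitive groups of automorphisms
of the `d`-regular rooted tree (the tree of the finite words over `Fin d`), `d ≥ 3`. It misses an
interval directly below `(d - 2) / (d - 1)`. For prime powers `d` its maximum `α_d` is larger than
`(d - 2) / (d - 1)`, and `(d - 2) / (d - 1)` itself belongs to it.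
-/

set_option autoImplicit false

namespace Pool.Agent.Results.MP_7bf935_al.MissingInterval

open V1188.FP Filter Pool.Agent.Results.MP_7bf935_al.MaximalFPP

theorem result : ∀ d : ℕ, 3 ≤ d →
    (∀ c ∈ fppSet d, c ≤ ((d : ℝ) - 2) / ((d : ℝ) - 1) -
        1 / (((d : ℝ) - 1) * (d.factorial : ℝ) ^ (d + 1)) ∨ ((d : ℝ) - 2) / ((d : ℝ) - 1) ≤ c) ∧
    (IsPrimePow d → ((d : ℝ) - 2) / ((d : ℝ) - 1) ∈ fppSet d ∧
      ∃ α : ℝ, IsGreatest (fppSet d) α ∧ ((d : ℝ) - 2) / ((d : ℝ) - 1) < α ∧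
        ∃ c : ℝ, 0 < c ∧ c < α ∧ c ∉ fppSet d) := by
  intro d hd3
  have hne : Nonempty (Fin d) := ⟨⟨0, by omega⟩⟩
  have hcard : d = Fintype.card (Fin d) := by simp
  have hgap : ∀ c ∈ fppSet d, c ≤ ((d : ℝ) - 2) / ((d : ℝ) - 1) -
        1 / (((d : ℝ) - 1) * (d.factorial : ℝ) ^ (d + 1)) ∨ ((d : ℝ) - 2) / ((d : ℝ) - 1) ≤ c := by
    rintro c ⟨G, hG, hc⟩
    have h1 : fpRatio G = (famOf G hG).P := by
      funext n; exact ratio_eq G (famOf G hG) n rfl
    unfold IsFPP at hc
    rw [h1] at hc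
    exact gap (famOf G hG) d hcard hd3 hc
  refine ⟨hgap, fun hpp => ?_⟩
  obtain ⟨α, hα, h1, h2⟩ := MaximalFPP.result d (by omega)
  have hαb := h1 hpp
  have hdR : (3 : ℝ) ≤ d := by exact_mod_cast hd3
  have h4 : (0 : ℝ) < (d : ℝ) - 1 := by linarith
  have h3 : ((d : ℝ) - 2) / ((d : ℝ) - 1) < α := by
    rw [hαb]
    unfold beta
    rw [div_lt_div_iff₀ (by linarith) (by nlinarith)]
    nlinarith
  refine ⟨?_, α, hα, h3, ?_⟩
  · have hpp' : IsPrimePow (Fintype.card (Fin d)) := by rwa [Fintype.card_fin]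
    obtain ⟨fld⟩ := Fintype.nonempty_field_iff.mpr hpp'
    have hlim := @tor_lim (Fin d) (Fin d) fld (Equiv.refl _) _ _ d hcard hd3
    set F0 : Fam (Fin d) := @torFam (Fin d) (Fin d) fld (Equiv.refl _) with hF0
    refine ⟨groupOf F0, groupOf_trans F0, ?_⟩
    have h5 : fpRatio (groupOf F0) = F0.P := by
      funext n; exact ratio_eq (groupOf F0) F0 n (map_groupOf F0 n)
    unfold IsFPP
    rw [h5]
    exact hlim
  · have h6 : (2 : ℝ) ≤ (d.factorial : ℝ) ^ (d + 1) := by
      have h7 : (2 : ℕ) ≤ d.factorial := by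
        calc 2 = Nat.factorial 2 := rfl
          _ ≤ d.factorial := Nat.factorial_le (by omega)
      have h8 : (2 : ℕ) ≤ d.factorial ^ (d + 1) := h7.trans (Nat.le_self_pow (by omega) _)
      exact_mod_cast h8
    have h5 : 1 / (((d : ℝ) - 1) * (d.factorial : ℝ) ^ (d + 1)) ≤ 1 / (((d : ℝ) - 1) * 2) := by
      apply one_div_le_one_div_of_le (by positivity)
      exact mul_le_mul_of_nonneg_left h6 h4.le
    have h9 : 1 / (((d : ℝ) - 1) * 2) < ((d : ℝ) - 2) / ((d : ℝ) - 1) := by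
      rw [div_lt_div_iff₀ (by positivity) h4]
      nlinarith
    have h10 : 0 < 1 / (((d : ℝ) - 1) * (d.factorial : ℝ) ^ (d + 1)) := by positivity
    refine ⟨((d : ℝ) - 2) / ((d : ℝ) - 1) -
      1 / (((d : ℝ) - 1) * (d.factorial : ℝ) ^ (d + 1)) / 2, by linarith, by linarith, ?_⟩
    intro hc
    rcases hgap _ hc with h | h
    · linarith
    · linarith

end Pool.Agent.Results.MP_7bf935_al.MissingInterval
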